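import Mathlib

set_option autoImplicit false

namespace Pool.Agent.Results.MP_2d70c5_nt.EqualValues

theorem result :
    ∃ a b n m : ℕ, 2 ≤ a ∧ a < b ∧ a ≤ n ∧ b ≤ m ∧
      Nat.card {g : Equiv.Perm (Fin n) // ∀ c ∈ g.cycleType, c = a} =
        Nat.card {g : Equiv.Perm (Fin m) // ∀ c ∈ g.cycleType, c = b} := by
  have key : ∀ n d : ℕ, 2 ≤ d → d ≤ n → n < 2 * d →
      Nat.card {g : Equiv.Perm (Fin n) // ∀ c ∈ g.cycleType, c = d} =
        1 + (d - 1).factorial * n.choose d := by
    intro n d hd hdn hn
    classical
    rw [Nat.card_eq_fintype_card, Fintype.card_subtype]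
    have h1 : (Finset.univ.filter (fun g : Equiv.Perm (Fin n) => ∀ c ∈ g.cycleType, c = d)) =
        insert 1 (Finset.univ.filter (fun g : Equiv.Perm (Fin n) => g.cycleType = {d})) := by
      ext g
      simp only [Finset.mem_filter, Finset.mem_univ, true_and, Finset.mem_insert]
      constructor
      · intro h
        have hr : g.cycleType = Multiset.replicate g.cycleType.card d :=
          Multiset.eq_replicate_card.mpr h
        have hs : g.cycleType.sum ≤ n := by
          rw [Equiv.Perm.sum_cycleType]
          simpa using Finset.card_le_univ g.support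
        rw [hr, Multiset.sum_replicate, smul_eq_mul] at hs
        have hc : g.cycleType.card < 2 := by
          by_contra hc
          have : 2 * d ≤ g.cycleType.card * d := Nat.mul_le_mul_right d (by omega)
          omega
        have : g.cycleType.card = 0 ∨ g.cycleType.card = 1 := by omega
        rcases this with h0 | h0
        · left
          exact Equiv.Perm.cycleType_eq_zero.mp (Multiset.card_eq_zero.mp h0)
        · right
          rw [hr, h0]; simp
      · rintro (rfl | h)
        · simp
        · rw [h]; simp
    rw [h1, Finset.card_insert_of_notMem (by simp)]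
    have := Equiv.Perm.card_of_cycleType_singleton (α := Fin n) hd (by simpa using hdn)
    rw [this, Fintype.card_fin, add_comm]
  refine ⟨42, 45, 49, 47, by norm_num, by norm_num, by norm_num, by norm_num, ?_⟩
  rw [key 49 42 (by norm_num) (by norm_num) (by norm_num),
    key 47 45 (by norm_num) (by norm_num) (by norm_num)]
  decide +kernel

end Pool.Agent.Results.MP_2d70c5_nt.EqualValues
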